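import Pool.Agent.Q283.HI.Upper

/-!
# Gluing rooted trees with prescribed degrees
-/

open Finset

namespace Pool.Agent.Q283.HI

section Glue

open scoped Classical

/-- two graphs joined by one edge -/
def glue {V₁ V₂ : Type} (G₁ : SimpleGraph V₁) (G₂ : SimpleGraph V₂) (r₁ : V₁) (r₂ : V₂) :
    SimpleGraph (V₁ ⊕ V₂) where
  Adj x y := match x, y with
    | .inl a, .inl b => G₁.Adj a b
    | .inr a, .inr b => G₂.Adj a b
    | .inl a, .inr b => a = r₁ ∧ b = r₂
    | .inr a, .inl b => a = r₂ ∧ b = r₁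
  symm := ⟨by
    rintro (a | a) (b | b) h
    · exact G₁.adj_symm h
    · exact ⟨h.2, h.1⟩
    · exact ⟨h.2, h.1⟩
    · exact G₂.adj_symm h⟩
  loopless := ⟨by
    rintro (a | a) h
    · exact G₁.loopless.irrefl a h
    · exact G₂.loopless.irrefl a h⟩

variable {V₁ V₂ : Type} {G₁ : SimpleGraph V₁} {G₂ : SimpleGraph V₂} {r₁ : V₁} {r₂ : V₂}

lemma RT.join' {V : Type*} {G : SimpleGraph V} [DecidableEq V] {r : V} {A : Finset V} {c : V}
    {B : Finset V} (hA : RT G r A) (hB : RT G c B) (hdis : Disjoint A B) (hadj : G.Adj r c)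
    (huni : ∀ a ∈ A, ∀ b ∈ B, G.Adj a b → a = r ∧ b = c) : RT G r (A ∪ B) := by
  have h1 : RT G r (@Union.union _ (@Finset.instUnion V fun a b => Classical.propDecidable (a = b))
    A B) := RT.join r A c B hA hB hdis hadj huni
  have h2 : A ∪ B = @Union.union _ (@Finset.instUnion V fun a b => Classical.propDecidable (a = b))
    A B := by
    ext x
    simp only [mem_union]
  rw [h2]
  exact h1

lemma RT.inl {r : V₁} {A : Finset V₁} (h : RT G₁ r A) :
    RT (glue G₁ G₂ r₁ r₂) (Sum.inl r) (A.map ⟨Sum.inl, Sum.inl_injective⟩) := by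
  induction h with
  | single v => simpa using RT.single (G := glue G₁ G₂ r₁ r₂) (Sum.inl v)
  | join r A c B _ _ hdis hadj huni ihA ihB =>
    rw [map_union]
    refine RT.join' ihA ihB ?_ hadj ?_
    · rwa [disjoint_map]
    · intro a ha b hb hab
      rw [mem_map] at ha hb
      obtain ⟨a, ha, rfl⟩ := ha
      obtain ⟨b, hb, rfl⟩ := hb
      obtain ⟨h1, h2⟩ := huni a ha b hb hab
      simp [h1, h2]

lemma RT.inr {r : V₂} {A : Finset V₂} (h : RT G₂ r A) :
    RT (glue G₁ G₂ r₁ r₂) (Sum.inr r) (A.map ⟨Sum.inr, Sum.inr_injective⟩) := by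
  induction h with
  | single v => simpa using RT.single (G := glue G₁ G₂ r₁ r₂) (Sum.inr v)
  | join r A c B _ _ hdis hadj huni ihA ihB =>
    rw [map_union]
    refine RT.join' ihA ihB ?_ hadj ?_
    · rwa [disjoint_map]
    · intro a ha b hb hab
      rw [mem_map] at ha hb
      obtain ⟨a, ha, rfl⟩ := ha
      obtain ⟨b, hb, rfl⟩ := hb
      obtain ⟨h1, h2⟩ := huni a ha b hb hab
      simp [h1, h2]

lemma RT.glue [Fintype V₁] [Fintype V₂] (h₁ : RT G₁ r₁ univ) (h₂ : RT G₂ r₂ univ) :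
    RT (glue G₁ G₂ r₁ r₂) (Sum.inl r₁) univ := by
  have h := RT.join' (RT.inl (G₂ := G₂) (r₁ := r₁) (r₂ := r₂) h₁)
    (RT.inr (G₁ := G₁) (r₁ := r₁) (r₂ := r₂) h₂) (by
      rw [disjoint_left]
      intro x hx hx'
      rw [mem_map] at hx hx'
      obtain ⟨a, _, rfl⟩ := hx
      obtain ⟨b, _, hb⟩ := hx'
      simp at hb) (by exact ⟨rfl, rfl⟩) (by
      intro a ha b hb hab
      rw [mem_map] at ha hb
      obtain ⟨a, ha, rfl⟩ := ha
      obtain ⟨b, hb, rfl⟩ := hb
      obtain ⟨h1, h2⟩ : a = r₁ ∧ b = r₂ := hab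
      simp [h1, h2])
  have hu : (univ.map ⟨Sum.inl, Sum.inl_injective⟩ : Finset (V₁ ⊕ V₂)) ∪
      univ.map ⟨Sum.inr, Sum.inr_injective⟩ = univ := by
    ext x
    rcases x with x | x <;> simp
  rwa [hu] at h

lemma RT.sum {V : Type} {G : SimpleGraph V} {r : V} {A : Finset V} (h : RT G r A) :
    ∑ v ∈ A, (A.filter fun u => G.Adj v u).card + 2 = 2 * A.card := by
  induction h with
  | single v =>
    have : ({v} : Finset V).filter (fun u => G.Adj v u) = ∅ := by
      ext x
      simp only [mem_filter, mem_singleton, notMem_empty, iff_false, not_and]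
      rintro rfl
      exact G.loopless.irrefl x
    simp [this]
  | join r A c B hA hB hdis hadj huni ihA ihB =>
    have hcB : c ∈ B := hB.mem
    have hrA : r ∈ A := hA.mem
    rw [sum_union hdis, card_union_of_disjoint hdis]
    have e1 : ∀ v ∈ A, ((A ∪ B).filter fun u => G.Adj v u).card =
        (A.filter fun u => G.Adj v u).card + if v = r then 1 else 0 := by
      intro v hv
      rw [filter_union, card_union_of_disjoint (disjoint_filter_filter hdis)]
      congr 1
      split_ifs with h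
      · subst h
        rw [card_eq_one]
        refine ⟨c, ?_⟩
        ext x
        simp only [mem_filter, mem_singleton]
        constructor
        · rintro ⟨hx, hvx⟩
          exact (huni v hv x hx hvx).2
        · rintro rfl
          exact ⟨hcB, hadj⟩
      · rw [card_eq_zero, filter_eq_empty_iff]
        intro x hx hvx
        exact h (huni v hv x hx hvx).1
    have e2 : ∀ v ∈ B, ((A ∪ B).filter fun u => G.Adj v u).card =
        (B.filter fun u => G.Adj v u).card + if v = c then 1 else 0 := by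
      intro v hv
      rw [union_comm, filter_union, card_union_of_disjoint (disjoint_filter_filter hdis.symm)]
      congr 1
      split_ifs with h
      · subst h
        rw [card_eq_one]
        refine ⟨r, ?_⟩
        ext x
        simp only [mem_filter, mem_singleton]
        constructor
        · rintro ⟨hx, hvx⟩
          exact (huni x hx v hv hvx.symm).1
        · rintro rfl
          exact ⟨hrA, hadj.symm⟩
      · rw [card_eq_zero, filter_eq_empty_iff]
        intro x hx hvx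
        exact h (huni x hx v hv hvx.symm).2
    rw [sum_congr rfl e1, sum_congr rfl e2, sum_add_distrib, sum_add_distrib,
      sum_ite_eq' A r, sum_ite_eq' B c, if_pos hrA, if_pos hcB]
    omega

lemma RT.isTree {V : Type} [Fintype V] {G : SimpleGraph V} {r : V} (h : RT G r univ) :
    G.IsTree := by
  rw [SimpleGraph.isTree_iff_connected_and_card]
  constructor
  · haveI : Nonempty V := ⟨r⟩
    refine ⟨?_⟩
    intro a b
    obtain ⟨p, _⟩ := h.walk a (mem_univ _)
    obtain ⟨q, _⟩ := h.walk b (mem_univ _)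
    exact ⟨p.reverse.append q⟩
  · have h1 := h.sum
    have h2 := G.sum_degrees_eq_twice_card_edges
    have h3 : ∀ v : V, G.degree v = (univ.filter fun u => G.Adj v u).card := by
      intro v
      rw [← SimpleGraph.card_neighborFinset_eq_degree]
      congr 1
      ext x
      simp
    rw [sum_congr rfl fun v _ => h3 v] at h2
    rw [h2] at h1
    have h4 : Nat.card G.edgeSet = G.edgeFinset.card := by
      rw [Nat.card_eq_fintype_card, ← SimpleGraph.edgeFinset_card]
    rw [h4, Nat.card_eq_fintype_card]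
    rw [card_univ] at h1
    omega

/-- a rooted tree with `n` vertices and an independent set with `a` vertices; the root has the
declared degree `d` and it has children of the degrees `C` -/
def Half (d : ℕ) (s : Bool) (C : Finset ℕ) (n a : ℕ) : Prop :=
  ∃ (V : Type) (_ : Fintype V) (G : SimpleGraph V) (r : V) (I : Finset V) (δ : V → ℕ),
    RT G r univ ∧ Fintype.card V = n ∧ I.card = a ∧ (r ∈ I ↔ s = true) ∧
    (∀ x ∈ I, ∀ y ∈ I, ¬ G.Adj x y) ∧ δ r = d ∧ (∀ v, v ≠ r → δ v = deg G v) ∧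
    deg G r = C.card ∧ (∀ u, G.Adj r u → δ u ∈ C) ∧
    ∀ v x y, G.Adj v x → G.Adj v y → x ≠ y → δ x ≠ δ y

lemma half_single (d : ℕ) (s : Bool) : Half d s ∅ 1 (if s then 1 else 0) := by
  refine ⟨Unit, inferInstance, ⊥, (), if s then {()} else ∅, fun _ => d, ?_, by simp, ?_, ?_, ?_,
    rfl, ?_, ?_, ?_, ?_⟩
  · have := RT.single (G := (⊥ : SimpleGraph Unit)) ()
    rwa [show ({()} : Finset Unit) = univ by rfl] at this
  · cases s <;> simp
  · cases s <;> simp
  · simp
  · intro v hv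
    exact absurd rfl hv
  · simp [deg]
  · simp
  · simp

lemma deg_inl [Fintype V₁] [Fintype V₂] (v : V₁) :
    deg (glue G₁ G₂ r₁ r₂) (Sum.inl v) = deg G₁ v + if v = r₁ then 1 else 0 := by
  unfold deg
  rw [card_filter, card_filter, Fintype.sum_sum_type]
  congr 1
  by_cases h : v = r₁
  · rw [if_pos h]
    have : ∀ b : V₂, (if (glue G₁ G₂ r₁ r₂).Adj (Sum.inl v) (Sum.inr b) then 1 else 0 : ℕ) =
        if b = r₂ then 1 else 0 := by
      intro b
      have : (glue G₁ G₂ r₁ r₂).Adj (Sum.inl v) (Sum.inr b) ↔ b = r₂ :=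
        ⟨fun h' => h'.2, fun h' => ⟨h, h'⟩⟩
      simp [this]
    rw [sum_congr rfl fun b _ => this b]
    simp
  · rw [if_neg h]
    apply sum_eq_zero
    intro b _
    rw [if_neg]
    exact fun h' => h h'.1

lemma deg_inr [Fintype V₁] [Fintype V₂] (v : V₂) :
    deg (glue G₁ G₂ r₁ r₂) (Sum.inr v) = deg G₂ v + if v = r₂ then 1 else 0 := by
  unfold deg
  rw [card_filter, card_filter, Fintype.sum_sum_type, add_comm]
  congr 1
  by_cases h : v = r₂
  · rw [if_pos h]
    have : ∀ b : V₁, (if (glue G₁ G₂ r₁ r₂).Adj (Sum.inr v) (Sum.inl b) then 1 else 0 : ℕ) =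
        if b = r₁ then 1 else 0 := by
      intro b
      have : (glue G₁ G₂ r₁ r₂).Adj (Sum.inr v) (Sum.inl b) ↔ b = r₁ :=
        ⟨fun h' => h'.2, fun h' => ⟨h, h'⟩⟩
      simp [this]
    rw [sum_congr rfl fun b _ => this b]
    simp
  · rw [if_neg h]
    apply sum_eq_zero
    intro b _
    rw [if_neg]
    exact fun h' => h h'.1

lemma Half.attach {d d' : ℕ} {s s' : Bool} {C C' : Finset ℕ} {n n' a a' : ℕ}
    (h : Half d s C n a) (h' : Half d' s' C' n' a') (hc : C'.card + 1 = d') (h1 : d' ∉ C)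
    (h2 : d ∉ C') (hs : (s && s') = false) : Half d s (insert d' C) (n + n') (a + a') := by
  obtain ⟨V₁, _, G₁, r₁, I₁, δ₁, ht₁, hn₁, ha₁, hr₁, hI₁, hd₁, hv₁, hdr₁, hch₁, hne₁⟩ := h
  obtain ⟨V₂, _, G₂, r₂, I₂, δ₂, ht₂, hn₂, ha₂, hr₂, hI₂, hd₂, hv₂, hdr₂, hch₂, hne₂⟩ := h'
  refine ⟨V₁ ⊕ V₂, inferInstance, Pool.Agent.Q283.HI.glue G₁ G₂ r₁ r₂, Sum.inl r₁,
    I₁.map ⟨Sum.inl, Sum.inl_injective⟩ ∪ I₂.map ⟨Sum.inr, Sum.inr_injective⟩,
    Sum.elim δ₁ δ₂, RT.glue ht₁ ht₂, ?_, ?_, ?_, ?_, ?_, ?_, ?_, ?_, ?_⟩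
  · rw [Fintype.card_sum, hn₁, hn₂]
  · rw [card_union_of_disjoint, card_map, card_map, ha₁, ha₂]
    rw [disjoint_left]
    intro x hx hx'
    rw [mem_map] at hx hx'
    obtain ⟨a, _, rfl⟩ := hx
    obtain ⟨b, _, hb⟩ := hx'
    simp at hb
  · rw [← hr₁]
    simp
  · intro x hx y hy hxy
    rw [mem_union, mem_map, mem_map] at hx hy
    rcases hx with ⟨x, hx, rfl⟩ | ⟨x, hx, rfl⟩ <;> rcases hy with ⟨y, hy, rfl⟩ | ⟨y, hy, rfl⟩
    · exact hI₁ x hx y hy hxy
    · obtain ⟨hx', hy'⟩ : x = r₁ ∧ y = r₂ := hxy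
      subst hx' hy'
      rw [hr₁.mp hx, hr₂.mp hy] at hs
      simp at hs
    · obtain ⟨hx', hy'⟩ : x = r₂ ∧ y = r₁ := hxy
      subst hx' hy'
      rw [hr₁.mp hy, hr₂.mp hx] at hs
      simp at hs
    · exact hI₂ x hx y hy hxy
  · exact hd₁
  · intro v hv
    rcases v with v | v
    · rw [deg_inl, if_neg (fun h => hv (by rw [h]))]
      exact hv₁ v (fun h => hv (by rw [h]))
    · rw [deg_inr]
      by_cases h : v = r₂
      · rw [if_pos h, h, hdr₂, hc, ← hd₂]
        rfl
      · rw [if_neg h]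
        exact hv₂ v h
  · rw [deg_inl, if_pos rfl, card_insert_of_notMem h1, hdr₁]
  · intro u hu
    rcases u with u | u
    · exact mem_insert_of_mem (hch₁ u hu)
    · obtain ⟨_, hu'⟩ : r₁ = r₁ ∧ u = r₂ := hu
      subst hu'
      show δ₂ u ∈ _
      rw [hd₂]
      exact mem_insert_self _ _
  · intro v x y hx hy hxy
    rcases v with v | v <;> rcases x with x | x <;> rcases y with y | y
    · exact hne₁ v x y hx hy (fun h => hxy (by rw [h]))
    · obtain ⟨hv', hy'⟩ : v = r₁ ∧ y = r₂ := hy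
      subst hv' hy'
      show δ₁ x ≠ δ₂ y
      rw [hd₂]
      intro h
      exact h1 (h ▸ hch₁ x hx)
    · obtain ⟨hv', hy'⟩ : v = r₁ ∧ x = r₂ := hx
      subst hv' hy'
      show δ₂ x ≠ δ₁ y
      rw [hd₂]
      intro h
      exact h1 (h ▸ hch₁ y hy)
    · obtain ⟨hv', hx'⟩ : v = r₁ ∧ x = r₂ := hx
      obtain ⟨_, hy'⟩ : v = r₁ ∧ y = r₂ := hy
      exact absurd (by rw [hx', hy']) hxy
    · obtain ⟨hv', hx'⟩ : v = r₂ ∧ x = r₁ := hx
      obtain ⟨_, hy'⟩ : v = r₂ ∧ y = r₁ := hy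
      exact absurd (by rw [hx', hy']) hxy
    · obtain ⟨hv', hx'⟩ : v = r₂ ∧ x = r₁ := hx
      subst hv' hx'
      show δ₁ x ≠ δ₂ y
      rw [hd₁]
      intro h
      exact h2 (h ▸ hch₂ y hy)
    · obtain ⟨hv', hy'⟩ : v = r₂ ∧ y = r₁ := hy
      subst hv' hy'
      show δ₂ x ≠ δ₁ y
      rw [hd₁]
      intro h
      exact h2 (h ▸ hch₂ x hx)
    · exact hne₂ v x y hx hy (fun h => hxy (by rw [h]))

/-- closing a rooted tree whose root has received all its children -/
lemma Half.close {d : ℕ} {s : Bool} {C : Finset ℕ} {n a : ℕ} (h : Half d s C n a)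
    (hc : C.card = d) : ∃ (V : Type) (_ : Fintype V) (G : SimpleGraph V) (I : Finset V),
      G.IsTree ∧ HighlyIrregular G ∧ (∀ x ∈ I, ∀ y ∈ I, ¬ G.Adj x y) ∧
      Fintype.card V = n ∧ I.card = a := by
  obtain ⟨V, _, G, r, I, δ, ht, hn, ha, hr, hI, hd, hv, hdr, hch, hne⟩ := h
  refine ⟨V, inferInstance, G, I, ht.isTree, ?_, hI, hn, ha⟩
  have hδ : ∀ v, δ v = deg G v := by
    intro v
    by_cases hvr : v = r
    · rw [hvr, hd, hdr, hc]
    · exact hv v hvr
  intro v x y hx hy hxy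
  rw [← hδ, ← hδ]
  exact hne v x y hx hy hxy

end Glue

end Pool.Agent.Q283.HI
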