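import Mathlib

/-!
# Rooted subtrees of a tree

`RT G r A`: the vertex set `A` with root `r` is built by hanging rooted subtrees under the root.
-/

open Finset

namespace Pool.Agent.Q283.HI

section Proof

open scoped Classical

variable {V : Type*} (G : SimpleGraph V)

/-- rooted subtrees -/
inductive RT : V → Finset V → Prop
  | single (v : V) : RT v {v}
  | join (r : V) (A : Finset V) (c : V) (B : Finset V) : RT r A → RT c B → Disjoint A B →
      G.Adj r c → (∀ a ∈ A, ∀ b ∈ B, G.Adj a b → a = r ∧ b = c) → RT r (A ∪ B)

variable {G}

lemma RT.mem {r : V} {A : Finset V} (h : RT G r A) : r ∈ A := by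
  induction h with
  | single v => simp
  | join r A c B _ _ _ _ _ ihA _ => exact mem_union_left _ ihA

lemma RT.leaf {r : V} {A : Finset V} (h : RT G r A) {v w : V} (hv : v ∈ A) (hw : w ∉ A)
    (hvw : G.Adj v w) (huniq : ∀ a ∈ A, G.Adj a w → a = v) : RT G r (insert w A) := by
  induction h with
  | single u =>
    obtain rfl : v = u := by simpa using hv
    have := RT.join v {v} w {w} (RT.single v) (RT.single w) (by
      rw [disjoint_singleton_right]; exact hw) hvw (by
      intro a ha b hb _
      exact ⟨by simpa using ha, by simpa using hb⟩)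
    rwa [show ({v} : Finset V) ∪ {w} = insert w {v} by ext x; simp [or_comm]] at this
  | join r A c B hA hB hdis hadj huni ihA ihB =>
    rw [mem_union, not_or] at hw
    rcases mem_union.mp hv with hvA | hvB
    · have h1 := ihA hvA hw.1 (fun a ha h => huniq a (mem_union_left _ ha) h)
      have := RT.join r (insert w A) c B h1 hB (by
        rw [disjoint_insert_left]; exact ⟨hw.2, hdis⟩) hadj (by
        intro a ha b hb hab
        rcases mem_insert.mp ha with rfl | ha
        · exfalso
          have : b = v := huniq b (mem_union_right _ hb) hab.symm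
          subst this
          exact (disjoint_left.mp hdis hvA) hb
        · exact huni a ha b hb hab)
      rwa [insert_union] at this
    · have h1 := ihB hvB hw.2 (fun a ha h => huniq a (mem_union_right _ ha) h)
      have := RT.join r A c (insert w B) hA h1 (by
        rw [disjoint_insert_right]; exact ⟨hw.1, hdis⟩) hadj (by
        intro a ha b hb hab
        rcases mem_insert.mp hb with rfl | hb
        · exfalso
          have : a = v := huniq a (mem_union_left _ ha) hab
          subst this
          exact (disjoint_left.mp hdis ha) hvB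
        · exact huni a ha b hb hab)
      rwa [union_insert] at this

/-- any two vertices of a rooted subtree are joined by a walk inside it -/
lemma RT.walk {r : V} {A : Finset V} (h : RT G r A) : ∀ v ∈ A, ∃ p : G.Walk r v,
    ∀ x ∈ p.support, x ∈ A := by
  induction h with
  | single u =>
    intro v hv
    obtain rfl : v = u := by simpa using hv
    exact ⟨SimpleGraph.Walk.nil, by simp⟩
  | join r A c B hA hB hdis hadj huni ihA ihB =>
    intro v hv
    rcases mem_union.mp hv with hv | hv
    · obtain ⟨p, hp⟩ := ihA v hv
      exact ⟨p, fun x hx => mem_union_left _ (hp x hx)⟩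
    · obtain ⟨p, hp⟩ := ihB v hv
      refine ⟨SimpleGraph.Walk.cons hadj p, ?_⟩
      intro x hx
      rw [SimpleGraph.Walk.support_cons, List.mem_cons] at hx
      rcases hx with rfl | hx
      · exact mem_union_left _ hA.mem
      · exact mem_union_right _ (hp x hx)

lemma RT.univ_of_tree [Fintype V] (hG : G.IsTree) (r : V) : RT G r univ := by
  -- a maximal rooted subtree
  obtain ⟨A, hA, hmax⟩ : ∃ A : Finset V, RT G r A ∧ ∀ B : Finset V, RT G r B → B.card ≤ A.card := by
    have hne : ((univ : Finset (Finset V)).filter (fun A => RT G r A)).Nonempty :=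
      ⟨{r}, by simp [RT.single r]⟩
    obtain ⟨A, hA, hmax⟩ := exists_max_image _ (fun A => A.card) hne
    exact ⟨A, (mem_filter.mp hA).2, fun B hB => hmax B (by simp [hB])⟩
  by_cases hu : A = univ
  · rwa [hu] at hA
  exfalso
  -- an edge leaving `A`
  obtain ⟨x, hx⟩ : ∃ x, x ∉ A := by
    by_contra h
    push Not at h
    exact hu (eq_univ_iff_forall.mpr h)
  obtain ⟨p⟩ := hG.1.preconnected r x
  obtain ⟨d, hd, hd1, hd2⟩ := p.exists_boundary_dart (A : Set V) (by simpa using hA.mem)
    (by simpa using hx)
  have hv : d.fst ∈ A := by simpa using hd1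
  have hw : d.snd ∉ A := by simpa using hd2
  have hadj : G.Adj d.fst d.snd := d.adj
  have hbig := hmax _ (hA.leaf hv hw hadj ?_)
  · rw [card_insert_of_notMem hw] at hbig
    omega
  · intro a ha haw
    by_contra hne
    -- two different paths from `a` to `d.fst`
    obtain ⟨p1, hp1⟩ := hA.walk a ha
    obtain ⟨p2, hp2⟩ := hA.walk d.fst hv
    have hq : ∀ y ∈ ((p1.reverse.append p2).toPath : G.Walk a d.fst).support, y ∈ A := by
      intro y hy
      have := SimpleGraph.Walk.support_toPath_subset _ hy
      rw [SimpleGraph.Walk.mem_support_append_iff, SimpleGraph.Walk.support_reverse,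
        List.mem_reverse] at this
      rcases this with h | h
      · exact hp1 y h
      · exact hp2 y h
    have hpath : (SimpleGraph.Walk.cons haw (SimpleGraph.Walk.cons hadj.symm
        SimpleGraph.Walk.nil) : G.Walk a d.fst).IsPath := by
      rw [SimpleGraph.Walk.cons_isPath_iff, SimpleGraph.Walk.cons_isPath_iff]
      refine ⟨⟨by simp, ?_⟩, ?_⟩
      · simp only [SimpleGraph.Walk.support_nil, List.mem_singleton]
        exact hadj.ne.symm
      · simp only [SimpleGraph.Walk.support_cons, SimpleGraph.Walk.support_nil, List.mem_cons,
          List.not_mem_nil, or_false, not_or]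
        exact ⟨haw.ne, hne⟩
    have heq := hG.2.path_unique (p1.reverse.append p2).toPath ⟨_, hpath⟩
    have : d.snd ∈ ((p1.reverse.append p2).toPath : G.Walk a d.fst).support := by
      rw [heq]
      simp
    exact hw (hq _ this)

end Proof

end Pool.Agent.Q283.HI
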