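import Pool.Agent.Q283.HI.RT

/-!
# The upper bound `127 α(T) ≤ 79 n - 22` for highly irregular trees
-/

open Finset

namespace Pool.Agent.Q283.HI

def rowsI : List (List ℤ) :=
  [[48, 48, 48, 48, 48, 48, 48],
   [17, 9, 17, 17, 17, 17, 17],
   [9, 9, -8, 3, 9, 9, 9],
   [5, 5, -12, -15, -8, 5, 5],
   [-3, -3, -18, -21, -19, -19, -3],
   [-22, -22, -22, -22, -22, -22, -22],
   [-35, -35, -35, -35, -35, -35, -35]]

def rowsO : List (List ℤ) :=
  [[-79, -79, -79, -79, -79, -79, -79],
   [-70, -31, -31, -31, -31, -31, -31],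
   [-70, -39, -14, -14, -14, -14, -14],
   [-70, -39, -25, -11, -11, -11, -11],
   [-74, -43, -35, -18, -13, -13, -13],
   [-74, -43, -35, -31, -13, -13, -13],
   [-80, -49, -41, -37, -29, -19, -16]]

/-- potential of a vertex of degree `d` (in the independent set iff `s`) whose parent has
degree `p` -/
def tab (s : Bool) (d p : ℕ) : ℤ :=
  ((if s then rowsI else rowsO).getD (min d 7 - 1) []).getD (min p 7 - 1) 0

def W (d : ℕ) (s : Bool) (e : ℕ) : ℤ := if s then tab false e d else max (tab true e d) (tab false e d)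

def wt (s : Bool) : ℤ := if s then 48 else -79

lemma check : ∀ d ∈ Finset.Icc 1 7, ∀ s : Bool, ∀ p ∈ Finset.Icc 1 7,
    ∀ X ∈ (Finset.Icc 1 6).powerset, p ∉ X → X.card ≤ d - 1 →
      wt s + (∑ e ∈ X, W d s e) + ((d - 1 - X.card : ℕ) : ℤ) * W d s 7 ≤ tab s d p := by
  decide +kernel

lemma check2 : ∀ d ∈ Finset.Icc 1 7, ∀ p ∈ Finset.Icc 1 7, ∀ s q : Bool, (s && q) = false →
    tab s d p + tab q p d ≤ -22 := by
  decide +kernel

lemma tab_min (s : Bool) (d p : ℕ) : tab s d p = tab s (min d 7) (min p 7) := by
  unfold tab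
  rw [show min (min d 7) 7 = min d 7 by omega, show min (min p 7) 7 = min p 7 by omega]

lemma W_min (d : ℕ) (s : Bool) (e : ℕ) : W d s e = W (min d 7) s (min e 7) := by
  unfold W
  rw [tab_min false e d, tab_min true e d]

lemma W_neg : ∀ s : Bool, W 7 s 7 ≤ 0 := by decide

lemma check' (d : ℕ) (hd : 1 ≤ d) (s : Bool) (p : ℕ) (hp : 1 ≤ p) (X : Finset ℕ)
    (hX : X ⊆ Finset.Icc 1 6) (hpX : p ∉ X) (r : ℕ) (hr : X.card + r = d - 1) :
    wt s + (∑ e ∈ X, W d s e) + (r : ℤ) * W d s 7 ≤ tab s d p := by
  have hc : X.card ≤ 6 := by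
    have := card_le_card hX
    simpa using this
  have hp' : min p 7 ∉ X := by
    intro h
    by_cases h7 : p ≤ 6
    · rw [show min p 7 = p by omega] at h
      exact hpX h
    · have := hX h
      rw [Finset.mem_Icc] at this
      omega
  rw [tab_min]
  have hsum : ∑ e ∈ X, W d s e = ∑ e ∈ X, W (min d 7) s e := by
    apply sum_congr rfl
    intro e he
    have := hX he
    rw [Finset.mem_Icc] at this
    rw [W_min, show min e 7 = e by omega]
  rw [hsum, W_min d s 7, show min 7 7 = 7 by rfl]
  by_cases h7 : d ≤ 7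
  · rw [show min d 7 = d by omega]
    have h := check d (by rw [Finset.mem_Icc]; omega) s (min p 7) (by rw [Finset.mem_Icc]; omega) X
      (by rw [mem_powerset]; exact hX) hp' (by omega)
    rw [show d - 1 - X.card = r by omega] at h
    exact h
  · rw [show min d 7 = 7 by omega]
    have h := check 7 (by decide) s (min p 7) (by rw [Finset.mem_Icc]; omega) X
      (by rw [mem_powerset]; exact hX) hp' (by omega)
    have hneg : W 7 s 7 ≤ 0 := W_neg s
    have hle : ((7 - 1 - X.card : ℕ) : ℤ) ≤ (r : ℤ) := by
      exact_mod_cast (show 7 - 1 - X.card ≤ r by omega)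
    nlinarith [mul_le_mul_of_nonpos_right hle hneg]

lemma le_W (d : ℕ) (s q : Bool) (e : ℕ) (h : (s && q) = false) : tab q e d ≤ W d s e := by
  unfold W
  cases s
  · cases q
    · simp
    · simp
  · cases q
    · simp
    · simp at h

open scoped Classical in
/-- the degree of a vertex -/
noncomputable def deg {V : Type*} [Fintype V] (G : SimpleGraph V) (v : V) : ℕ :=
  (univ.filter fun u => G.Adj v u).card

/-- distinct neighbours of a vertex have different degrees -/
def HighlyIrregular {V : Type*} [Fintype V] (G : SimpleGraph V) : Prop :=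
  ∀ v a b, G.Adj v a → G.Adj v b → a ≠ b → deg G a ≠ deg G b

section Bound

open scoped Classical

variable {V : Type*} [Fintype V] {G : SimpleGraph V} {I : Finset V}

noncomputable def st (I : Finset V) (v : V) : Bool := decide (v ∈ I)

lemma st_and (hI : ∀ a ∈ I, ∀ b ∈ I, ¬ G.Adj a b) {a b : V} (h : G.Adj a b) :
    (st I a && st I b) = false := by
  by_contra hc
  rw [Bool.not_eq_false, Bool.and_eq_true] at hc
  exact hI a (by simpa [st] using hc.1) b (by simpa [st] using hc.2) h

lemma deg_pos {a b : V} (h : G.Adj a b) : 1 ≤ deg G a := by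
  unfold deg
  rw [Nat.one_le_iff_ne_zero, Ne, card_eq_zero]
  intro h0
  have : b ∈ univ.filter fun u => G.Adj a u := by simp [h]
  rw [h0] at this
  simp at this

lemma loc (hG : HighlyIrregular G) (hI : ∀ a ∈ I, ∀ b ∈ I, ¬ G.Adj a b) {c p : V} {C : Finset V}
    (hp : p ∉ C) (hN : (univ.filter fun u => G.Adj c u) = insert p C) :
    wt (st I c) + ∑ u ∈ C, tab (st I u) (deg G u) (deg G c) ≤ tab (st I c) (deg G c) (deg G p) := by
  have hcp : G.Adj c p := by
    have : p ∈ univ.filter fun u => G.Adj c u := by rw [hN]; exact mem_insert_self _ _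
    simpa using this
  have hC : ∀ u ∈ C, G.Adj c u := by
    intro u hu
    have : u ∈ univ.filter fun u => G.Adj c u := by rw [hN]; exact mem_insert_of_mem hu
    simpa using this
  have hdeg : deg G c = C.card + 1 := by
    unfold deg
    rw [hN, card_insert_of_notMem hp]
  have hinj : Set.InjOn (deg G) (C : Set V) := by
    intro a ha b hb hab
    by_contra hne
    exact hG c a b (hC a ha) (hC b hb) hne hab
  have hinj' : Set.InjOn (deg G) ((C.filter fun u => deg G u ≤ 6 : Finset V) : Set V) := by
    intro a ha b hb hab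
    exact hinj (by simp at ha; exact ha.1) (by simp at hb; exact hb.1) hab
  set X : Finset ℕ := (C.filter fun u => deg G u ≤ 6).image (deg G) with hX
  have hXs : X ⊆ Finset.Icc 1 6 := by
    intro e he
    rw [hX, mem_image] at he
    obtain ⟨u, hu, rfl⟩ := he
    rw [mem_filter] at hu
    rw [Finset.mem_Icc]
    exact ⟨deg_pos (hC u hu.1).symm, hu.2⟩
  have hpX : deg G p ∉ X := by
    intro h
    rw [hX, mem_image] at h
    obtain ⟨u, hu, hup⟩ := h
    rw [mem_filter] at hu
    exact hG c u p (hC u hu.1) hcp (fun h => hp (h ▸ hu.1)) hup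
  have hXc : X.card = (C.filter fun u => deg G u ≤ 6).card := card_image_of_injOn hinj'
  have hr : X.card + (C.filter fun u => ¬ deg G u ≤ 6).card = deg G c - 1 := by
    rw [hXc, card_filter_add_card_filter_not, hdeg]
    rfl
  have h1 : ∑ u ∈ C, tab (st I u) (deg G u) (deg G c) ≤
      (∑ e ∈ X, W (deg G c) (st I c) e) +
        ((C.filter fun u => ¬ deg G u ≤ 6).card : ℤ) * W (deg G c) (st I c) 7 := by
    rw [← sum_filter_add_sum_filter_not C (fun u => deg G u ≤ 6)]
    apply add_le_add
    · rw [hX, sum_image hinj']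
      apply sum_le_sum
      intro u hu
      rw [mem_filter] at hu
      exact le_W _ _ _ _ (st_and hI (hC u hu.1))
    · rw [← nsmul_eq_mul, ← sum_const]
      apply sum_le_sum
      intro u hu
      rw [mem_filter] at hu
      have := le_W (deg G c) (st I c) (st I u) (deg G u) (st_and hI (hC u hu.1))
      rw [W_min] at this
      rw [W_min _ _ 7]
      rwa [show min (deg G u) 7 = min 7 7 by omega] at this
  have h2 := check' (deg G c) (deg_pos hcp) (st I c) (deg G p) (deg_pos hcp.symm) X hXs hpX _ hr
  linarith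

lemma RT.bound (hG : HighlyIrregular G) (hI : ∀ a ∈ I, ∀ b ∈ I, ¬ G.Adj a b) {r : V} {A : Finset V}
    (h : RT G r A) (hcl : ∀ v ∈ A, v ≠ r → ∀ u, G.Adj v u → u ∈ A) :
    ∑ v ∈ A, wt (st I v) ≤ wt (st I r) +
      ∑ u ∈ A.filter (fun u => G.Adj r u), tab (st I u) (deg G u) (deg G r) := by
  induction h with
  | single v =>
    rw [sum_singleton]
    have : ({v} : Finset V).filter (fun u => G.Adj v u) = ∅ := by
      ext x
      simp only [mem_filter, mem_singleton, notMem_empty, iff_false, not_and]
      rintro rfl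
      exact G.loopless.irrefl x
    rw [this]
    simp
  | join r A c B hA hB hdis hadj huni ihA ihB =>
    have hcB : c ∈ B := hB.mem
    have hrA : r ∈ A := hA.mem
    have hrB : r ∉ B := disjoint_left.mp hdis hrA
    have hcA : c ∉ A := fun h => disjoint_left.mp hdis h hcB
    have i1 := ihA (by
      intro v hv hvr u hu
      have := hcl v (mem_union_left _ hv) hvr u hu
      rcases mem_union.mp this with h | h
      · exact h
      · exact absurd (huni v hv u h hu).1 hvr)
    have i2 := ihB (by
      intro v hv hvc u hu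
      have hvr : v ≠ r := fun h => hrB (h ▸ hv)
      have := hcl v (mem_union_right _ hv) hvr u hu
      rcases mem_union.mp this with h | h
      · exact absurd (huni u h v hv hu.symm).2 hvc
      · exact h)
    have hcr : c ≠ r := fun h => hrB (h ▸ hcB)
    have hNc : (univ.filter fun u => G.Adj c u) = insert r (B.filter fun u => G.Adj c u) := by
      ext x
      simp only [mem_filter, mem_univ, true_and, mem_insert]
      constructor
      · intro hx
        rcases mem_union.mp (hcl c (mem_union_right _ hcB) hcr x hx) with h | h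
        · left
          exact (huni x h c hcB hx.symm).1
        · right
          exact ⟨h, hx⟩
      · rintro (rfl | h)
        · exact hadj.symm
        · exact h.2
    have i3 := loc hG hI (c := c) (p := r) (C := B.filter fun u => G.Adj c u)
      (by simp [hrB]) hNc
    have hNr : (A ∪ B).filter (fun u => G.Adj r u) = insert c (A.filter fun u => G.Adj r u) := by
      ext x
      simp only [mem_filter, mem_union, mem_insert]
      constructor
      · rintro ⟨h | h, hx⟩
        · right; exact ⟨h, hx⟩
        · left; exact (huni r hrA x h hx).2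
      · rintro (rfl | h)
        · exact ⟨Or.inr hcB, hadj⟩
        · exact ⟨Or.inl h.1, h.2⟩
    rw [hNr, sum_insert (by simp [hcA]), sum_union hdis]
    linarith

theorem upper (hT : G.IsTree) (hG : HighlyIrregular G) (hI : ∀ a ∈ I, ∀ b ∈ I, ¬ G.Adj a b)
    (h2 : 2 ≤ Fintype.card V) : 127 * I.card + 22 ≤ 79 * Fintype.card V := by
  haveI : Nontrivial V := Fintype.one_lt_card_iff_nontrivial.mp (by omega)
  obtain ⟨r⟩ : Nonempty V := inferInstance
  obtain ⟨p, hp⟩ : ∃ p, G.Adj r p := by
    obtain ⟨x, hx⟩ := exists_ne r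
    obtain ⟨q⟩ := hT.1.preconnected r x
    cases q with
    | nil => exact absurd rfl hx
    | cons h _ => exact ⟨_, h⟩
  have h1 := (RT.univ_of_tree hT r).bound hG hI (by simp)
  set C := (univ.filter fun u => G.Adj r u).erase p with hC
  have hN : (univ.filter fun u => G.Adj r u) = insert p C := by
    rw [hC, insert_erase (by simp [hp])]
  have h2' := loc hG hI (c := r) (p := p) (C := C) (by simp [hC]) hN
  rw [hN, sum_insert (by simp [hC])] at h1
  have h3 : tab (st I p) (deg G p) (deg G r) + tab (st I r) (deg G r) (deg G p) ≤ -22 := by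
    rw [tab_min, tab_min (st I r)]
    have a1 := deg_pos hp
    have a2 := deg_pos hp.symm
    exact check2 _ (by rw [Finset.mem_Icc]; omega) _ (by rw [Finset.mem_Icc]; omega) _ _
      (st_and hI hp.symm)
  have h4 : ∑ v : V, wt (st I v) = 127 * (I.card : ℤ) - 79 * (Fintype.card V : ℤ) := by
    have : ∀ v : V, wt (st I v) = 127 * (if v ∈ I then (1 : ℤ) else 0) - 79 := by
      intro v
      by_cases h : v ∈ I <;> simp [wt, st, h]
    rw [sum_congr rfl fun v _ => this v, sum_sub_distrib, ← mul_sum]
    simp
    ring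
  rw [h4] at h1
  omega

end Bound

end Pool.Agent.Q283.HI
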